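import Mathlib
import Pool.Agent.Lib.MP_6b55e5_an.Defs
import Pool.Agent.Lib.MP_6b55e5_an.Assemble
import Pool.Agent.Lib.MP_6b55e5_an.Fat

/-!
# Rogers's first question: not every Besicovitch set has property (S)
-/

namespace Pool.Agent.Results.MP_6b55e5_an.NotAllThin

open Pool.Agent.Lib.MP_6b55e5_an

theorem result : ∃ E : Set Plane, IsCompact E ∧ IsBesicovitch E ∧ ¬ PropertyS E := by
  obtain ⟨φ, hφ, h⟩ := exists_family
  have hc : IsCompact (KS φ ∪ NS) := (KS_isCompact hφ).union NS_isCompact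
  refine ⟨KS φ ∪ NS, hc, ⟨hc.isBounded,
    MeasureTheory.measure_union_null (KS_null (Araw_null h)) NS_null, ?_⟩,
    not_propertyS Set.subset_union_right⟩
  intro e he
  obtain ⟨p, hp⟩ := KS_segments φ e he
  exact ⟨p, hp.trans Set.subset_union_left⟩

end Pool.Agent.Results.MP_6b55e5_an.NotAllThin
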